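import Mathlib

/-!
# Directed subfamilies of families of sets without infinite antichains
-/

set_option autoImplicit false

universe u

namespace Pool.Agent.K3h97.SR

open Set

variable {X : Type u}

/-- No member is contained in another member. -/
def Incomparable (Γ : Set (Set X)) : Prop := ∀ A ∈ Γ, ∀ B ∈ Γ, A ≠ B → ¬ A ⊆ B

/-- directed by inclusion -/
def Dir (I : Set (Set X)) : Prop := ∀ A ∈ I, ∀ B ∈ I, ∃ C ∈ I, A ⊆ C ∧ B ⊆ C

/-- `q` is prime in `P`: the members of `P` above `q` are directed -/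
def Prime (P : Set (Set X)) (q : Set X) : Prop :=
  q ∈ P ∧ ∀ a ∈ P, ∀ b ∈ P, q ⊆ a → q ⊆ b → ∃ c ∈ P, a ⊆ c ∧ b ⊆ c

theorem exists_prime {P : Set (Set X)} (hP : ∀ Γ ⊆ P, Incomparable Γ → Γ.Finite) {p : Set X}
    (hp : p ∈ P) : ∃ q, Prime P q ∧ p ⊆ q := by
  classical
  by_contra hcon
  push Not at hcon
  have h1 : ∀ q : {q : Set X // q ∈ P ∧ p ⊆ q}, ∃ a b : {q : Set X // q ∈ P ∧ p ⊆ q},
      q.1 ⊆ a.1 ∧ q.1 ⊆ b.1 ∧ ∀ c ∈ P, ¬ (a.1 ⊆ c ∧ b.1 ⊆ c) := by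
    rintro ⟨q, hq, hpq⟩
    by_contra hc
    refine hcon q ⟨hq, ?_⟩ hpq
    intro a ha b hb hqa hqb
    by_contra hab
    push Not at hab
    exact hc ⟨⟨a, ha, hpq.trans hqa⟩, ⟨b, hb, hpq.trans hqb⟩, hqa, hqb,
      fun c hc h => hab c hc h.1 h.2⟩
  choose a b hqa hqb hinc using h1
  let s : ℕ → {q : Set X // q ∈ P ∧ p ⊆ q} := fun n => Nat.rec ⟨p, hp, subset_rfl⟩ (fun _ q => b q) n
  have hs : ∀ n, s (n + 1) = b (s n) := fun n => rfl
  have hmono : ∀ m n, m ≤ n → (s m).1 ⊆ (s n).1 := by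
    intro m n hmn
    induction n, hmn using Nat.le_induction with
    | base => exact subset_rfl
    | succ n _ ih => exact ih.trans (by rw [hs]; exact hqb _)
  have hno : ∀ m n, m < n → ∀ c ∈ P, ¬ ((a (s m)).1 ⊆ c ∧ (a (s n)).1 ⊆ c) := by
    rintro m n hmn c hc ⟨h2, h3⟩
    refine hinc (s m) c hc ⟨h2, ?_⟩
    rw [← hs]
    exact (hmono (m + 1) n hmn).trans ((hqa _).trans h3)
  have hne : ∀ m n, m ≠ n → ∀ c ∈ P, ¬ ((a (s m)).1 ⊆ c ∧ (a (s n)).1 ⊆ c) := by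
    intro m n hmn c hc h2
    rcases lt_or_gt_of_ne hmn with h | h
    · exact hno m n h c hc h2
    · exact hno n m h c hc ⟨h2.2, h2.1⟩
  have hinj : Function.Injective (fun n => (a (s n)).1) := by
    intro m n hmn
    by_contra h
    simp only at hmn
    exact hne m n h _ (a (s n)).2.1 ⟨hmn.subset, subset_rfl⟩
  have hfin := hP (range fun n => (a (s n)).1) (by rintro _ ⟨n, rfl⟩; exact (a (s n)).2.1) (by
    rintro _ ⟨m, rfl⟩ _ ⟨n, rfl⟩ hmn h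
    have : m ≠ n := by rintro rfl; exact hmn rfl
    exact hne m n this _ (a (s n)).2.1 ⟨h, subset_rfl⟩)
  exact infinite_range_of_injective hinj hfin

/-- a family without infinite antichains is a finite union of directed subfamilies -/
theorem finite_directed {P : Set (Set X)} (hP : ∀ Γ ⊆ P, Incomparable Γ → Γ.Finite) :
    ∃ F : Set (Set (Set X)), F.Finite ∧ (∀ J ∈ F, J ⊆ P ∧ Dir J) ∧ P ⊆ ⋃₀ F := by
  classical
  -- maximal families of pairwise incompatible primes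
  let S : Set (Set (Set X)) := {M | (∀ q ∈ M, Prime P q) ∧
    ∀ a ∈ M, ∀ b ∈ M, a ≠ b → ∀ c ∈ P, ¬ (a ⊆ c ∧ b ⊆ c)}
  obtain ⟨M, -, hM⟩ := zorn_subset_nonempty S (by
    intro c hc hchain hne
    refine ⟨⋃₀ c, ⟨?_, ?_⟩, fun s hs => subset_sUnion_of_mem hs⟩
    · rintro q ⟨M, hM, hq⟩
      exact (hc hM).1 q hq
    · rintro a ⟨M, hM, ha⟩ b ⟨N, hN, hb⟩ hab
      rcases hchain.total hM hN with h | h
      · exact (hc hN).2 a (h ha) b hb hab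
      · exact (hc hM).2 a ha b (h hb) hab) ∅ ⟨by simp, by simp⟩
  have hMS := hM.prop
  have hMfin : M.Finite := hP M (fun q hq => (hMS.1 q hq).1) (by
    intro a ha b hb hab h
    exact hMS.2 a ha b hb hab b (hMS.1 b hb).1 ⟨h, subset_rfl⟩)
  refine ⟨(fun m => {x | x ∈ P ∧ ∃ z ∈ P, x ⊆ z ∧ m ⊆ z}) '' M, hMfin.image _, ?_, ?_⟩
  · rintro _ ⟨m, hm, rfl⟩
    refine ⟨fun x hx => hx.1, ?_⟩
    rintro x ⟨hx, z, hz, hxz, hmz⟩ y ⟨hy, w, hw, hyw, hmw⟩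
    obtain ⟨c, hc, hzc, hwc⟩ := (hMS.1 m hm).2 z hz w hw hmz hmw
    exact ⟨c, ⟨hc, c, hc, subset_rfl, hmz.trans hzc⟩, hxz.trans hzc, hyw.trans hwc⟩
  · intro x hx
    obtain ⟨q, hq, hxq⟩ := exists_prime hP hx
    -- `q` is compatible with a member of `M`
    have hcomp : ∃ m ∈ M, ∃ c ∈ P, q ⊆ c ∧ m ⊆ c := by
      by_contra hcon
      push Not at hcon
      have hqM : q ∉ M := fun h => hcon q h q hq.1 subset_rfl subset_rfl
      have hins : insert q M ∈ S := by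
        refine ⟨?_, ?_⟩
        · rintro r (rfl | hr)
          · exact hq
          · exact hMS.1 r hr
        · rintro a (rfl | ha) b (rfl | hb) hab c hc ⟨h1, h2⟩
          · exact hab rfl
          · exact hcon b hb c hc h1 h2
          · exact hcon a ha c hc h2 h1
          · exact hMS.2 a ha b hb hab c hc ⟨h1, h2⟩
      exact hqM (hM.le_of_ge hins (subset_insert _ _) (mem_insert _ _))
    obtain ⟨m, hm, c, hc, hqc, hmc⟩ := hcomp
    exact ⟨_, ⟨m, hm, rfl⟩, hx, c, hc, hxq.trans hqc, hmc⟩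

/-- the maximal directed subfamilies of a family -/
def MaxDir (𝒱 : Set (Set X)) : Set (Set (Set X)) :=
  {I | I ⊆ 𝒱 ∧ I.Nonempty ∧ Dir I ∧ ∀ J ⊆ 𝒱, Dir J → I ⊆ J → J ⊆ I}

theorem exists_maxDir {𝒱 : Set (Set X)} {A : Set X} (hA : A ∈ 𝒱) : ∃ I ∈ MaxDir 𝒱, A ∈ I := by
  obtain ⟨I, hAI, hI⟩ := zorn_subset_nonempty {I : Set (Set X) | I ⊆ 𝒱 ∧ Dir I} (by
    intro c hc hchain hne
    refine ⟨⋃₀ c, ⟨sUnion_subset fun I hI => (hc hI).1, ?_⟩, fun s hs => subset_sUnion_of_mem hs⟩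
    rintro A ⟨I, hI, hA⟩ B ⟨J, hJ, hB⟩
    rcases hchain.total hI hJ with h | h
    · obtain ⟨C, hC, h1⟩ := (hc hJ).2 A (h hA) B hB
      exact ⟨C, ⟨J, hJ, hC⟩, h1⟩
    · obtain ⟨C, hC, h1⟩ := (hc hI).2 A hA B (h hB)
      exact ⟨C, ⟨I, hI, hC⟩, h1⟩) {A} ⟨by simpa using hA, by
      rintro B hB C hC
      rw [mem_singleton_iff] at hB hC
      subst hB
      subst hC
      exact ⟨_, rfl, subset_rfl, subset_rfl⟩⟩
  refine ⟨I, ⟨hI.prop.1, ⟨A, hAI rfl⟩, hI.prop.2, ?_⟩, hAI rfl⟩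
  intro J hJ hJd hIJ
  exact hI.le_of_ge ⟨hJ, hJd⟩ hIJ

/-- a finite subset of a directed family has an upper bound -/
theorem Dir.bound {I : Set (Set X)} (hI : Dir I) (hne : I.Nonempty) {s : Set (Set X)}
    (hs : s.Finite) (hsI : s ⊆ I) : ∃ C ∈ I, ∀ A ∈ s, A ⊆ C := by
  induction s, hs using Set.Finite.induction_on with
  | empty => obtain ⟨C, hC⟩ := hne; exact ⟨C, hC, by simp⟩
  | insert _ _ ih =>
    rename_i a s _ _
    obtain ⟨C, hC, hCs⟩ := ih ((subset_insert _ _).trans hsI)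
    obtain ⟨D, hD, h1, h2⟩ := hI a (hsI (mem_insert _ _)) C hC
    refine ⟨D, hD, ?_⟩
    rintro A (rfl | hA)
    · exact h1
    · exact (hCs A hA).trans h2

/-- every point lies in the unions of only finitely many maximal directed subfamilies -/
theorem maxDir_finite {𝒱 : Set (Set X)} {y : X}
    (hP : ∀ Γ ⊆ {A | A ∈ 𝒱 ∧ y ∈ A}, Incomparable Γ → Γ.Finite) :
    {I | I ∈ MaxDir 𝒱 ∧ y ∈ ⋃₀ I}.Finite := by
  classical
  obtain ⟨F, hF, hF1, hF2⟩ := finite_directed hP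
  refine (hF.image (fun J => {A | A ∈ 𝒱 ∧ ∃ B ∈ J, A ⊆ B})).subset ?_
  rintro I ⟨⟨hI1, hI2, hI3, hI4⟩, A₀, hA₀, hy⟩
  have hex : ∃ J ∈ F, ∀ A ∈ I, ∃ B ∈ J, B ∈ I ∧ A ⊆ B := by
    by_contra hcon
    push Not at hcon
    choose! a ha hb using hcon
    obtain ⟨C, hC, hCs⟩ := hI3.bound hI2 ((hF.image a).insert A₀) (by
      rintro B (rfl | ⟨J, hJ, rfl⟩)
      · exact hA₀
      · exact ha J hJ)
    have hyC : y ∈ C := hCs A₀ (mem_insert _ _) hy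
    obtain ⟨J, hJ, hCJ⟩ := hF2 ⟨hI1 hC, hyC⟩
    exact hb J hJ C hCJ hC (hCs (a J) (mem_insert_of_mem _ ⟨J, hJ, rfl⟩))
  obtain ⟨J, hJ, hJI⟩ := hex
  refine ⟨J, hJ, ?_⟩
  apply Subset.antisymm
  · refine hI4 _ (fun A hA => hA.1) ?_ ?_
    · rintro A ⟨hA, B, hB, hAB⟩ A' ⟨hA', B', hB', hAB'⟩
      obtain ⟨C, hC, h1, h2⟩ := (hF1 J hJ).2 B hB B' hB'
      exact ⟨C, ⟨((hF1 J hJ).1 hC).1, C, hC, subset_rfl⟩, hAB.trans h1, hAB'.trans h2⟩
    · intro A hA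
      obtain ⟨B, hB, _, hAB⟩ := hJI A hA
      exact ⟨hI1 hA, B, hB, hAB⟩
  · intro A hA
    obtain ⟨B, hB, _, hAB⟩ := hJI A hA
    exact ⟨hI1 hA, B, hB, hAB⟩

end Pool.Agent.K3h97.SR
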