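import Pool.Agent.K3h97.SR.Fac

/-!
# `T₁` spaces with a base of subinfinite rank are metacompact
-/

set_option autoImplicit false

universe u

namespace Pool.Agent.K3h97.SR

open Set TopologicalSpace

variable {X : Type u}

/-- Koenig's lemma for a relation between successive finite levels. -/
theorem konig {α : Type*} (T : ℕ → Set α) (hfin : ∀ k, (T k).Finite) (hne : ∀ k, (T k).Nonempty)
    (R : α → α → Prop) (hpar : ∀ k, ∀ b ∈ T (k + 1), ∃ a ∈ T k, R a b) :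
    ∃ f : ℕ → α, ∀ k, f k ∈ T k ∧ R (f k) (f (k + 1)) := by
  classical
  -- paths of length `n` starting in `a` at level `k`
  let Path : ℕ → ℕ → α → Prop := fun n => Nat.rec (fun k a => a ∈ T k)
    (fun _ ih k a => a ∈ T k ∧ ∃ b, R a b ∧ ih (k + 1) b) n
  have hP0 : ∀ k a, Path 0 k a ↔ a ∈ T k := fun k a => Iff.rfl
  have hPs : ∀ n k a, Path (n + 1) k a ↔ a ∈ T k ∧ ∃ b, R a b ∧ Path n (k + 1) b :=
    fun n k a => Iff.rfl
  have hPT : ∀ n k a, Path n k a → a ∈ T k := by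
    intro n
    cases n with
    | zero => intro k a h; exact h
    | succ n => intro k a h; exact h.1
  have hex : ∀ n k, ∃ a, Path n k a := by
    intro n
    induction n with
    | zero => intro k; exact hne k
    | succ n ih =>
      intro k
      obtain ⟨b, hb⟩ := ih (k + 1)
      obtain ⟨a, ha, hab⟩ := hpar k b (hPT _ _ _ hb)
      exact ⟨a, ha, b, hab, hb⟩
  have hmono1 : ∀ n k a, Path (n + 1) k a → Path n k a := by
    intro n
    induction n with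
    | zero => intro k a h; exact h.1
    | succ n ih =>
      rintro k a ⟨ha, b, hab, hb⟩
      exact ⟨ha, b, hab, ih _ _ hb⟩
  have hmono : ∀ m n, m ≤ n → ∀ k a, Path n k a → Path m k a := by
    intro m n hmn
    induction n, hmn using Nat.le_induction with
    | base => intro k a h; exact h
    | succ n _ ih => intro k a h; exact ih k a (hmono1 n k a h)
  -- pigeonhole
  have hpig : ∀ k (Q : α → Prop), (∀ n, ∃ b, Q b ∧ Path n k b) → ∃ b, Q b ∧ ∀ n, Path n k b := by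
    intro k Q h
    choose b hb hbP using h
    have hbT : ∀ n, b n ∈ T k := fun n => hPT n k _ (hbP n)
    obtain ⟨c, -, hc⟩ : ∃ c ∈ T k, {n | b n = c}.Infinite := by
      by_contra hcon
      push Not at hcon
      have : (univ : Set ℕ) ⊆ ⋃ c ∈ T k, {n | b n = c} := by
        intro n _
        simp only [mem_iUnion, mem_ofPred_eq]
        exact ⟨b n, hbT n, rfl⟩
      exact infinite_univ (((hfin k).biUnion fun c hc => hcon c hc).subset this)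
    obtain ⟨n₀, hn₀⟩ := hc.nonempty
    refine ⟨c, by rw [← hn₀]; exact hb n₀, fun n => ?_⟩
    obtain ⟨m, hm, hnm⟩ := hc.exists_gt n
    rw [mem_ofPred_eq] at hm
    rw [← hm]
    exact hmono n m hnm.le _ _ (hbP m)
  have hstart : ∃ a, ∀ n, Path n 0 a := by
    obtain ⟨a, -, ha⟩ := hpig 0 (fun _ => True) (fun n => by
      obtain ⟨a, ha⟩ := hex n 0
      exact ⟨a, trivial, ha⟩)
    exact ⟨a, ha⟩
  have hstep : ∀ k (a : {a : α // ∀ n, Path n k a}), ∃ b : {b : α // ∀ n, Path n (k + 1) b},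
      R a.1 b.1 := by
    rintro k ⟨a, ha⟩
    obtain ⟨b, hb, hb'⟩ := hpig (k + 1) (fun b => R a b) (fun n => (ha (n + 1)).2)
    exact ⟨⟨b, hb'⟩, hb⟩
  choose next hnext using hstep
  obtain ⟨a₀, ha₀⟩ := hstart
  let f : (k : ℕ) → {a : α // ∀ n, Path n k a} := fun k =>
    Nat.rec (motive := fun k => {a : α // ∀ n, Path n k a}) ⟨a₀, ha₀⟩ (fun k a => next k a) k
  refine ⟨fun k => (f k).1, fun k => ⟨(f k).2 0, hnext k (f k)⟩⟩

/-- every incomparable subfamily with nonempty intersection is finite -/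
def SubinfiniteRank (Γ : Set (Set X)) : Prop :=
  ∀ Γ' ⊆ Γ, Incomparable Γ' → (⋂₀ Γ').Nonempty → Γ'.Finite

/-- every open cover has a point-finite open refinement -/
def Metacompact (X : Type u) [TopologicalSpace X] : Prop :=
  ∀ 𝒰 : Set (Set X), (∀ U ∈ 𝒰, IsOpen U) → ⋃₀ 𝒰 = univ →
    ∃ 𝒱 : Set (Set X), (∀ V ∈ 𝒱, IsOpen V) ∧ ⋃₀ 𝒱 = univ ∧ (∀ V ∈ 𝒱, ∃ U ∈ 𝒰, V ⊆ U) ∧
      ∀ x, {V | V ∈ 𝒱 ∧ x ∈ V}.Finite

theorem main_t1 [TopologicalSpace X] [T1Space X] {B : Set (Set X)} (hB : IsTopologicalBasis B)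
    (hr : SubinfiniteRank B) : Metacompact X := by
  classical
  intro 𝒰 hU hcov
  rcases isEmpty_or_nonempty X with hX | hX
  · exact ⟨∅, by simp, by ext x; exact hX.elim x, by simp, fun x => hX.elim x⟩
  -- `B_y` has no infinite antichains
  have hfac : ∀ (𝒱 : Set (Set X)), 𝒱 ⊆ B → ∀ y, ∀ Γ ⊆ {A | A ∈ 𝒱 ∧ y ∈ A}, Incomparable Γ →
      Γ.Finite := by
    intro 𝒱 h𝒱 y Γ hΓ hinc
    exact hr Γ (fun A hA => h𝒱 (hΓ hA).1) hinc ⟨y, fun A hA => (hΓ hA).2⟩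
  -- bad families
  let bad : Set (Set X) → Prop := fun I => ∀ U ∈ 𝒰, ¬ ⋃₀ I ⊆ U
  -- a point in the union
  have hp : ∀ I : Set (Set X), ∃ p : X, (⋃₀ I).Nonempty → p ∈ ⋃₀ I := by
    intro I
    by_cases h : (⋃₀ I).Nonempty
    · exact ⟨h.some, fun _ => h.some_mem⟩
    · exact ⟨hX.some, fun h' => absurd h' h⟩
  choose p hp using hp
  -- neighbourhood assignments
  let Nbt : Type u := {V : X → Set X // ∀ x, V x ∈ B ∧ x ∈ V x ∧ ∃ U ∈ 𝒰, V x ⊆ U}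
  have hstart : Nonempty Nbt := by
    have : ∀ x, ∃ V ∈ B, x ∈ V ∧ ∃ U ∈ 𝒰, V ⊆ U := by
      intro x
      obtain ⟨U, hU1, hxU⟩ : x ∈ ⋃₀ 𝒰 := by rw [hcov]; trivial
      obtain ⟨V, hV, hxV, hVU⟩ := hB.exists_subset_of_mem_open hxU (hU U hU1)
      exact ⟨V, hV, hxV, U, hU1, hVU⟩
    choose V hV hxV hVU using this
    exact ⟨⟨V, fun x => ⟨hV x, hxV x, hVU x⟩⟩⟩
  have hrange : ∀ V : Nbt, range V.1 ⊆ B := by
    rintro V _ ⟨x, rfl⟩
    exact (V.2 x).1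
  have hfinMD : ∀ (V : Nbt) (y : X), {I | I ∈ MaxDir (range V.1) ∧ y ∈ ⋃₀ I}.Finite :=
    fun V y => maxDir_finite (hfac _ (hrange V) y)
  have hopenMD : ∀ (V : Nbt) (I : Set (Set X)), I ∈ MaxDir (range V.1) → IsOpen (⋃₀ I) := by
    intro V I hI
    exact isOpen_sUnion fun A hA => hB.isOpen (hrange V (hI.1 hA))
  -- the next assignment
  have hnext : ∀ V : Nbt, ∃ V' : Nbt, (∀ x, V'.1 x ⊆ V.1 x) ∧
      (∀ I ∈ MaxDir (range V.1), ∀ x ∈ ⋃₀ I, V'.1 x ⊆ ⋃₀ I ∧ (x ≠ p I → p I ∉ V'.1 x)) := by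
    intro V
    have : ∀ x, ∃ W ∈ B, x ∈ W ∧ W ⊆ V.1 x ∧
        ∀ I ∈ MaxDir (range V.1), x ∈ ⋃₀ I → W ⊆ ⋃₀ I ∧ (x ≠ p I → p I ∉ W) := by
      intro x
      have hfin := hfinMD V x
      have ho : IsOpen (V.1 x ∩ ⋂ I ∈ {I | I ∈ MaxDir (range V.1) ∧ x ∈ ⋃₀ I},
          (⋃₀ I ∩ ({p I} \ {x} : Set X)ᶜ)) := by
        refine (hB.isOpen (V.2 x).1).inter (hfin.isOpen_biInter ?_)
        intro I hI
        refine (hopenMD V I hI.1).inter ?_
        exact ((finite_singleton (p I)).subset sdiff_subset).isClosed.isOpen_compl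
      have hx : x ∈ (V.1 x ∩ ⋂ I ∈ {I | I ∈ MaxDir (range V.1) ∧ x ∈ ⋃₀ I},
          (⋃₀ I ∩ ({p I} \ {x} : Set X)ᶜ)) := by
        refine ⟨(V.2 x).2.1, ?_⟩
        simp only [mem_iInter]
        rintro I ⟨hI, hxI⟩
        exact ⟨hxI, fun h => h.2 rfl⟩
      obtain ⟨W, hW, hxW, hWs⟩ := hB.exists_subset_of_mem_open hx ho
      refine ⟨W, hW, hxW, fun z hz => (hWs hz).1, ?_⟩
      intro I hI hxI
      have h1 : W ⊆ ⋃₀ I ∩ ({p I} \ {x} : Set X)ᶜ := by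
        intro z hz
        have := (hWs hz).2
        simp only [mem_iInter] at this
        exact this I ⟨hI, hxI⟩
      refine ⟨fun z hz => (h1 hz).1, fun hne hpW => ?_⟩
      exact (h1 hpW).2 ⟨rfl, fun h => hne (mem_singleton_iff.1 h).symm⟩
    choose W hW hxW hWV hWI using this
    exact ⟨⟨W, fun x => ⟨hW x, hxW x, by
      obtain ⟨U, hU1, h⟩ := (V.2 x).2.2
      exact ⟨U, hU1, (hWV x).trans h⟩⟩⟩, hWV, fun I hI x hx => hWI x I hI hx⟩
  choose next hnext1 hnext2 using hnext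
  let V : ℕ → Nbt := fun n => Nat.rec hstart.some (fun _ V => next V) n
  have hVs : ∀ n, V (n + 1) = next (V n) := fun n => rfl
  let 𝒱 : ℕ → Set (Set X) := fun n => range (V n).1
  have hMDne : ∀ n, ∀ I ∈ MaxDir (𝒱 n), (⋃₀ I).Nonempty := by
    rintro n I ⟨h1, ⟨A, hA⟩, -⟩
    obtain ⟨x, rfl⟩ := h1 hA
    exact ⟨x, _, hA, ((V n).2 x).2.1⟩
  have hpmem : ∀ n, ∀ I ∈ MaxDir (𝒱 n), p I ∈ ⋃₀ I := fun n I hI => hp I (hMDne n I hI)
  -- every maximal directed family of the next level lies below one of the given level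
  have hA : ∀ n, ∀ I' ∈ MaxDir (𝒱 (n + 1)), ∃ I ∈ MaxDir (𝒱 n), ⋃₀ I' ⊆ ⋃₀ I := by
    intro n I' hI'
    obtain ⟨h1, ⟨A₀, hA₀⟩, h3, h4⟩ := id hI'
    have hSne : ∀ A ∈ I', ∃ I ∈ MaxDir (𝒱 n), A ⊆ ⋃₀ I := by
      intro A hA
      obtain ⟨x, rfl⟩ := h1 hA
      obtain ⟨I, hI, hxI⟩ := exists_maxDir (𝒱 := 𝒱 n) (A := (V n).1 x) ⟨x, rfl⟩
      refine ⟨I, hI, ?_⟩
      rw [hVs]
      exact (hnext1 (V n) x).trans (subset_sUnion_of_mem hxI)
    obtain ⟨x₀, hx₀⟩ := h1 hA₀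
    have hx₀' : x₀ ∈ A₀ := by rw [← hx₀]; exact ((V (n + 1)).2 x₀).2.1
    have hfin : {I | I ∈ MaxDir (𝒱 n) ∧ A₀ ⊆ ⋃₀ I}.Finite :=
      (hfinMD (V n) x₀).subset fun I hI => ⟨hI.1, hI.2 hx₀'⟩
    by_contra hcon
    push Not at hcon
    have hch : ∀ I ∈ MaxDir (𝒱 n), ∃ A ∈ I', ¬ A ⊆ ⋃₀ I := by
      intro I hI
      by_contra hc
      push Not at hc
      exact hcon I hI (sUnion_subset hc)
    choose! a ha hna using hch
    obtain ⟨C, hC, hCs⟩ := Dir.bound h3 ⟨A₀, hA₀⟩ ((hfin.image a).insert A₀) (by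
      rintro A (rfl | ⟨I, hI, rfl⟩)
      · exact hA₀
      · exact ha I hI.1)
    obtain ⟨I, hI, hCI⟩ := hSne C hC
    have hIA : A₀ ⊆ ⋃₀ I := (hCs A₀ (mem_insert _ _)).trans hCI
    exact hna I hI ((hCs (a I) (mem_insert_of_mem _ ⟨I, ⟨hI, hIA⟩, rfl⟩)).trans hCI)
  have hB1 : ∀ n, ∀ I' ∈ MaxDir (𝒱 (n + 1)), bad I' → ∀ I ∈ MaxDir (𝒱 n), ⋃₀ I' ⊆ ⋃₀ I →
      bad I ∧ p I ∉ ⋃₀ I' := by
    intro n I' hI' hbad I hI hsub
    refine ⟨fun U hU1 h => hbad U hU1 (hsub.trans h), ?_⟩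
    rintro ⟨A, hA1, hpA⟩
    have hkey : ∀ C ∈ I', p I ∈ C → C = (V (n + 1)).1 (p I) := by
      intro C hC hpC
      obtain ⟨x, rfl⟩ := hI'.1 hC
      have hxI : x ∈ ⋃₀ I := hsub ⟨_, hC, ((V (n + 1)).2 x).2.1⟩
      by_cases hx : x = p I
      · rw [hx]
      · exact absurd hpC ((hnext2 (V n) I hI x hxI).2 hx)
    have htop : ⋃₀ I' ⊆ A := by
      refine sUnion_subset fun C hC => ?_
      obtain ⟨D, hD, h1, h2⟩ := hI'.2.2.1 A hA1 C hC
      have h3 := hkey D hD (h1 hpA)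
      have h4 := hkey A hA1 hpA
      rw [h4, ← h3]
      exact h2
    obtain ⟨x, hx⟩ := hI'.1 hA1
    obtain ⟨U, hU1, hxU⟩ := ((V (n + 1)).2 x).2.2
    refine hbad U hU1 (htop.trans ?_)
    rw [← hx]
    exact hxU
  let G : ℕ → Set X := fun n => ⋃₀ {Z | ∃ I ∈ MaxDir (𝒱 n), bad I ∧ Z = ⋃₀ I}
  have hGopen : ∀ n, IsOpen (G n) := by
    intro n
    refine isOpen_sUnion ?_
    rintro _ ⟨I, hI, -, rfl⟩
    exact hopenMD (V n) I hI
  have hGanti : ∀ n, G (n + 1) ⊆ G n := by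
    rintro n y ⟨_, ⟨I', hI', hbad, rfl⟩, hy⟩
    obtain ⟨I, hI, hsub⟩ := hA n I' hI'
    exact ⟨_, ⟨I, hI, (hB1 n I' hI' hbad I hI hsub).1, rfl⟩, hsub hy⟩
  have hGanti' : ∀ m n, m ≤ n → G n ⊆ G m := by
    intro m n hmn
    induction n, hmn using Nat.le_induction with
    | base => exact subset_rfl
    | succ n _ ih => exact (hGanti n).trans ih
  -- the sets `G n` have empty intersection
  have hGe : ∀ y, ∃ n, y ∉ G n := by
    intro y
    by_contra hcon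
    push Not at hcon
    obtain ⟨f, hf⟩ := konig (fun n => {I | I ∈ MaxDir (𝒱 n) ∧ bad I ∧ y ∈ ⋃₀ I})
      (fun n => (hfinMD (V n) y).subset fun I hI => ⟨hI.1, hI.2.2⟩)
      (fun n => by
        obtain ⟨_, ⟨I, hI, hb, rfl⟩, hy⟩ := hcon n
        exact ⟨I, hI, hb, hy⟩)
      (fun I I' => ⋃₀ I' ⊆ ⋃₀ I)
      (fun n I' hI' => by
        obtain ⟨I, hI, hsub⟩ := hA n I' hI'.1
        exact ⟨I, ⟨hI, (hB1 n I' hI'.1 hI'.2.1 I hI hsub).1, hsub hI'.2.2⟩, hsub⟩)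
    have hfsub : ∀ m n, m ≤ n → ⋃₀ (f n) ⊆ ⋃₀ (f m) := by
      intro m n hmn
      induction n, hmn using Nat.le_induction with
      | base => exact subset_rfl
      | succ n _ ih => exact (hf n).2.trans ih
    have hpn : ∀ m n, m < n → p (f m) ∉ ⋃₀ (f n) := by
      intro m n hmn h
      exact (hB1 m (f (m + 1)) (hf (m + 1)).1.1 (hf (m + 1)).1.2.1 (f m) (hf m).1.1 (hf m).2).2
        (hfsub (m + 1) n hmn h)
    obtain ⟨g, hg1, hg2⟩ := exists_seq_of_forall_finset_exists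
      (fun z : ℕ × Set X => z.2 ∈ f z.1 ∧ y ∈ z.2 ∧ p (f z.1) ∈ z.2)
      (fun z w => z.1 < w.1 ∧ ¬ w.2 ⊆ z.2) (by
        intro s hs
        obtain ⟨N, hN⟩ : ∃ N, ∀ z ∈ s, z.1 < N :=
          ⟨s.sup (fun z => z.1) + 1, fun z hz => Nat.lt_succ_of_le (Finset.le_sup (f := fun z => z.1) hz)⟩
        have hfN := (hf N).1
        -- the points outside of the given sets
        have hpt : ∀ z ∈ s, ∃ w ∈ ⋃₀ (f N), w ∉ z.2 := by
          intro z hz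
          obtain ⟨x, hx⟩ := (hf z.1).1.1.1 (hs z hz).1
          obtain ⟨U, hU1, hxU⟩ := ((V z.1).2 x).2.2
          have := hfN.2.1 U hU1
          rw [not_subset] at this
          obtain ⟨w, hw, hwU⟩ := this
          refine ⟨w, hw, fun h => hwU (hxU ?_)⟩
          rw [hx]
          exact h
        choose! w hw1 hw2 using hpt
        choose! c hc hwc using hw1
        obtain ⟨Ay, hAy, hyA⟩ := hfN.2.2
        obtain ⟨Ap, hAp, hpA⟩ := hpmem N (f N) hfN.1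
        obtain ⟨C, hC, hCs⟩ := Dir.bound hfN.1.2.2.1 ⟨Ay, hAy⟩
          (((s.finite_toSet.image c).insert Ap).insert Ay) (by
            rintro A (rfl | rfl | ⟨z, hz, rfl⟩)
            · exact hAy
            · exact hAp
            · exact hc z hz)
        refine ⟨(N, C), ⟨hC, hCs Ay (by simp) hyA, hCs Ap (by simp) hpA⟩, fun z hz => ⟨hN z hz, ?_⟩⟩
        intro h
        exact hw2 z hz (h (hCs (c z) (mem_insert_of_mem _ (mem_insert_of_mem _ ⟨z, hz, rfl⟩))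
          (hwc z hz))))
    have hnot : ∀ m n, m < n → ¬ (g m).2 ⊆ (g n).2 := by
      intro m n hmn h
      exact hpn _ _ (hg2 m n hmn).1 ⟨_, (hg1 n).1, h (hg1 m).2.2⟩
    have hnot' : ∀ m n, m ≠ n → ¬ (g m).2 ⊆ (g n).2 := by
      intro m n hmn
      rcases lt_or_gt_of_ne hmn with h | h
      · exact hnot m n h
      · exact (hg2 n m h).2
    have hinj : Function.Injective (fun n => (g n).2) := by
      intro m n hmn
      by_contra h
      exact hnot' m n h (Eq.subset hmn)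
    refine infinite_range_of_injective hinj (hr _ ?_ ?_ ⟨y, ?_⟩)
    · rintro _ ⟨n, rfl⟩
      exact hrange (V (g n).1) ((hf (g n).1).1.1.1 (hg1 n).1)
    · rintro _ ⟨m, rfl⟩ _ ⟨n, rfl⟩ hmn
      exact hnot' m n (by rintro rfl; exact hmn rfl)
    · rintro _ ⟨n, rfl⟩
      exact (hg1 n).2.1
  -- the refinement
  let G' : ℕ → Set X := fun n => Nat.casesOn n univ (fun m => G m)
  refine ⟨{Z | ∃ n, ∃ I ∈ MaxDir (𝒱 n), ¬ bad I ∧ Z = ⋃₀ I ∩ G' n}, ?_, ?_, ?_, ?_⟩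
  · rintro _ ⟨n, I, hI, -, rfl⟩
    refine (hopenMD (V n) I hI).inter ?_
    cases n with
    | zero => exact isOpen_univ
    | succ m => exact hGopen m
  · refine eq_univ_of_forall fun y => ?_
    obtain ⟨hn1, hn2⟩ : y ∉ G (Nat.find (hGe y)) ∧ ∀ m < Nat.find (hGe y), y ∈ G m :=
      ⟨Nat.find_spec (hGe y), fun m hm => not_not.1 (Nat.find_min (hGe y) hm)⟩
    set n := Nat.find (hGe y)
    obtain ⟨I, hI, hyI⟩ := exists_maxDir (𝒱 := 𝒱 n) (A := (V n).1 y) ⟨y, rfl⟩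
    have hyI' : y ∈ ⋃₀ I := ⟨_, hyI, ((V n).2 y).2.1⟩
    refine ⟨_, ⟨n, I, hI, fun hb => hn1 ⟨_, ⟨I, hI, hb, rfl⟩, hyI'⟩, rfl⟩, hyI', ?_⟩
    cases hn : n with
    | zero => trivial
    | succ m => exact hn2 m (by omega)
  · rintro _ ⟨n, I, hI, hb, rfl⟩
    simp only [bad, not_forall, not_not] at hb
    obtain ⟨U, hU1, h⟩ := hb
    exact ⟨U, hU1, inter_subset_left.trans h⟩
  · intro y
    obtain ⟨N, hN⟩ := hGe y
    refine ((finite_Iic (N + 1)).biUnion (t := fun n => (fun I : Set (Set X) => ⋃₀ I ∩ G' n) ''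
      {I | I ∈ MaxDir (𝒱 n) ∧ y ∈ ⋃₀ I}) (fun n _ => (hfinMD (V n) y).image _)).subset ?_
    rintro _ ⟨⟨n, I, hI, -, rfl⟩, hy1, hy2⟩
    simp only [mem_iUnion]
    refine ⟨n, ?_, I, ⟨hI, hy1⟩, rfl⟩
    rw [mem_Iic]
    by_contra hlt
    push Not at hlt
    cases n with
    | zero => omega
    | succ m => exact hN (hGanti' N m (by omega) hy2)

end Pool.Agent.K3h97.SR
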